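import Pool.Agent.H402.EngelSolv

/-!
# The primes obstructing solvability of locally nilpotent `n`-Engel groups

`S n` is the set of primes `p` for which some locally nilpotent `n`-Engel `p`-group is not
solvable.

1. `p ∈ S n` iff finite `n`-Engel `p`-groups have unbounded derived length.
2. A set `π` of primes that leaves out a prime is sufficient for solvability iff the derived
   lengths of the finite `n`-Engel `r`-groups, `r` a prime outside `π`, are bounded.
3. Locally nilpotent `n`-Engel groups whose elements of prime order all have order in a finite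
   nonempty set of primes outside `S n` are solvable of bounded derived length.
4. If finite `n`-Engel `q`-groups have bounded class for one prime `q`, then `S n` is finite and
   a set of primes is sufficient for solvability iff it contains `S n`; the derived lengths are
   then bounded.
5. `S n ⊆ S (n + 1)`.
-/

set_option autoImplicit false

universe u

namespace Pool.Agent.Results.MP_f7c5a7_al.ObstructingPrimes

open Pool.Agent.Helper111.EN Pool.Agent.H402.ES

theorem result (n : ℕ) :
    (∀ p : ℕ, p.Prime → (p ∈ S.{u} n ↔ ∀ d : ℕ, ¬ DLE n p d)) ∧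
    (∀ π : Set ℕ, π ⊆ {p | p.Prime} → (∃ q : ℕ, q.Prime ∧ q ∉ π) →
      (SolvSufficient.{u} n π ↔ ∃ d : ℕ, ∀ r : ℕ, r.Prime → r ∉ π → DLE n r d)) ∧
    (∀ F : Set ℕ, F.Finite → F.Nonempty → F ⊆ {p | p.Prime} → (∀ p ∈ F, p ∉ S.{u} n) →
      ∃ d : ℕ, ∀ (G : Type u) [Group G], IsEngel n G → LocNil G →
        NoOrder {p | p.Prime ∧ p ∉ F} G → derivedSeries G d = ⊥) ∧
    ((∃ q : ℕ, q.Prime ∧ ¬ Unbounded n q) →
      (S.{u} n).Finite ∧
      (∀ π : Set ℕ, π ⊆ {p | p.Prime} → (SolvSufficient.{u} n π ↔ S.{u} n ⊆ π)) ∧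
      ∃ d : ℕ, ∀ (G : Type u) [Group G], IsEngel n G → LocNil G → NoOrder (S.{u} n) G →
        derivedSeries G d = ⊥) ∧
    S.{u} n ⊆ S.{u} (n + 1) := by
  refine ⟨mem_S_iff n, solvSufficient_iff n, finite_bound n, ?_, S_mono n⟩
  rintro ⟨q, hq, hU⟩
  obtain ⟨h1, h2⟩ := uniform.{u} n q hq hU
  refine ⟨h1, ?_, h2 (S.{u} n) (fun p hp => hp.1) le_rfl⟩
  intro π hπ
  constructor
  · intro hS p hp
    by_contra hpπ
    obtain ⟨G, _, hG, hE, hL, hn⟩ := hp.2
    exact hn (hS G hE hL (noOrder_of_pGroup hp.1 hG π (fun r hr => hπ hr) hpπ))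
  · intro hS G _ hE hL hN
    obtain ⟨d, hd⟩ := h2 π hπ hS
    rw [Group.isSolvable_def]
    exact ⟨d, hd G hE hL hN⟩

end Pool.Agent.Results.MP_f7c5a7_al.ObstructingPrimes
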